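import Pool.Agent.L7h84.TT.Stm

/-! # Project TT, part SING: first variation with a singular term -/

open Real Set MeasureTheory Filter Topology

namespace Pool.Agent.L7h34.TT

theorem sqrt_sub_le {x y : ℝ} (hy : 0 < y) : |√x - √y| ≤ |x - y| / √y := by
  have hsy : 0 < √y := Real.sqrt_pos.2 hy
  rw [le_div_iff₀ hsy]
  rcases le_or_gt 0 x with hx | hx
  · have h1 : (√x - √y) * (√x + √y) = x - y := by
      have h2 := Real.sq_sqrt hx
      have h3 := Real.sq_sqrt hy.le
      nlinarith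
    rw [← h1, abs_mul]
    have : √y ≤ |√x + √y| := by
      rw [abs_of_nonneg (by positivity)]; linarith [Real.sqrt_nonneg x]
    exact mul_le_mul_of_nonneg_left this (abs_nonneg _)
  · rw [Real.sqrt_eq_zero_of_nonpos hx.le]
    rw [zero_sub, abs_neg, abs_of_pos hsy, Real.mul_self_sqrt hy.le]
    rw [abs_of_neg (by linarith)]; linarith

theorem lim_B (q : ℝ) (V B : ℝ → ℝ) (hV : ContinuousOn V (Icc 0 q))
    (hB : ContinuousOn B (Icc 0 q)) (hV1 : ∀ r ∈ Ico 0 q, V r < 1)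
    (hi : IntegrableOn (fun r => 1 / √(1 - V r)) (Ioo 0 q)) :
    Tendsto (fun ε : ℝ => ∫ r in Ioo 0 q, (√(1 - V r - ε * B r) - √(1 - V r)) / ε) (𝓝[>] 0)
      (𝓝 (∫ r in Ioo 0 q, -(B r / √(1 - V r)) / 2)) := by
  obtain ⟨C, hC⟩ := isCompact_Icc.exists_bound_of_continuousOn hB
  refine tendsto_integral_filter_of_dominated_convergence (fun r => C * (1 / √(1 - V r))) ?_ ?_ ?_ ?_
  · refine Eventually.of_forall fun ε => ?_
    refine ContinuousOn.aestronglyMeasurable ?_ measurableSet_Ioo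
    have hV' := hV.mono (Ioo_subset_Icc_self)
    have hB' := hB.mono (Ioo_subset_Icc_self)
    exact ((((continuousOn_const.sub hV').sub (continuousOn_const.mul hB')).sqrt).sub
      ((continuousOn_const.sub hV').sqrt)).div_const _
  · filter_upwards [self_mem_nhdsWithin] with ε hε
    have hε : 0 < ε := hε
    refine (ae_restrict_iff' measurableSet_Ioo).2 (Eventually.of_forall fun r hr => ?_)
    have h1 : 0 < 1 - V r := by linarith [hV1 r ⟨hr.1.le, hr.2⟩]
    have h2 := sqrt_sub_le (x := 1 - V r - ε * B r) h1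
    have h3 : |B r| ≤ C := hC r ⟨hr.1.le, hr.2.le⟩
    rw [Real.norm_eq_abs, abs_div, abs_of_pos hε, div_le_iff₀ hε]
    refine h2.trans ?_
    rw [show 1 - V r - ε * B r - (1 - V r) = -(ε * B r) by ring, abs_neg, abs_mul, abs_of_pos hε]
    rw [div_le_iff₀ (Real.sqrt_pos.2 h1)]
    rw [show C * (1 / √(1 - V r)) * ε * √(1 - V r) = C * ε by
      have := (Real.sqrt_pos.2 h1).ne'
      field_simp]
    rw [mul_comm]
    exact mul_le_mul_of_nonneg_right h3 hε.le
  · exact (hi.const_mul C)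
  · refine (ae_restrict_iff' measurableSet_Ioo).2 (Eventually.of_forall fun r hr => ?_)
    have h1 : 0 < 1 - V r := by linarith [hV1 r ⟨hr.1.le, hr.2⟩]
    have h2 : HasDerivAt (fun ε : ℝ => 1 - V r - ε * B r) (-B r) 0 := by
      have h := ((hasDerivAt_id (0 : ℝ)).mul_const (B r)).const_sub (1 - V r)
      simpa using h
    have h3 : HasDerivAt (fun ε : ℝ => √(1 - V r - ε * B r))
        (-B r / (2 * √(1 - V r - 0 * B r))) 0 :=
      h2.sqrt (by simpa using h1.ne')
    have h4 := h3.tendsto_slope_zero_right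
    have h5 : -B r / (2 * √(1 - V r - 0 * B r)) = -(B r / √(1 - V r)) / 2 := by
      rw [zero_mul, sub_zero]
      have := (Real.sqrt_pos.2 h1).ne'
      field_simp
    rw [h5] at h4
    refine h4.congr' (Eventually.of_forall fun ε => ?_)
    simp only [zero_add, zero_mul, sub_zero, smul_eq_mul]
    rw [div_eq_inv_mul]

theorem lim_W (q : ℝ) (hq : 0 < q) (V B W : ℝ → ℝ) (hV : ContinuousOn V (Icc 0 q))
    (hB : ContinuousOn B (Icc 0 q)) (hW : ContinuousOn W (Ioc 0 q))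
    (hV1 : ∀ r ∈ Ico 0 q, V r < 1) (hW0 : ∀ r ∈ Ioc 0 q, 0 ≤ W r)
    (hW1 : Tendsto (fun r => r ^ 2 * W r) (𝓝[>] 0) (𝓝 1)) (M : ℝ) (hM : 0 < M) :
    Tendsto (fun ε : ℝ => ∫ x in Ioo 0 M,
      (√(1 - V (ε * x) - ε * B (ε * x) - ε ^ 2 * W (ε * x)) - √(1 - V (ε * x) - ε * B (ε * x))))
      (𝓝[>] 0) (𝓝 (∫ x in Ioo 0 M, (√(1 - V 0 - 1 / x ^ 2) - √(1 - V 0)))) := by
  obtain ⟨C, hC⟩ := isCompact_Icc.exists_bound_of_continuousOn hB
  obtain ⟨C', hC'⟩ := isCompact_Icc.exists_bound_of_continuousOn hV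
  have hC0 : 0 ≤ C := (norm_nonneg _).trans (hC 0 ⟨le_rfl, hq.le⟩)
  have hC0' : 0 ≤ C' := (norm_nonneg _).trans (hC' 0 ⟨le_rfl, hq.le⟩)
  have hsmall : ∀ᶠ ε in 𝓝[>] (0 : ℝ), 0 < ε ∧ ε < 1 ∧ ε * M < q := by
    have h1 : ∀ᶠ ε in 𝓝[>] (0 : ℝ), ε < min 1 (q / M) :=
      nhdsWithin_le_nhds (Iio_mem_nhds (lt_min one_pos (div_pos hq hM)))
    filter_upwards [self_mem_nhdsWithin, h1] with ε h2 h3
    exact ⟨h2, h3.trans_le (min_le_left _ _), (lt_div_iff₀ hM).1 (h3.trans_le (min_le_right _ _))⟩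
  have hmaps : ∀ ε : ℝ, 0 < ε → ε * M < q → ∀ x ∈ Ioo 0 M, ε * x ∈ Ioo 0 q := by
    intro ε h0 h1 x hx
    exact ⟨mul_pos h0 hx.1, (mul_lt_mul_of_pos_left hx.2 h0).trans h1⟩
  refine tendsto_integral_filter_of_dominated_convergence
    (fun _ => √(1 + C' + C) + √(1 + C' + C)) ?_ ?_ ?_ ?_
  · filter_upwards [hsmall] with ε hε
    refine ContinuousOn.aestronglyMeasurable ?_ measurableSet_Ioo
    have hm : MapsTo (fun x : ℝ => ε * x) (Ioo 0 M) (Ioo 0 q) := hmaps ε hε.1 hε.2.2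
    have hc : ContinuousOn (fun x : ℝ => ε * x) (Ioo 0 M) := by fun_prop
    have hV' := (hV.mono (Ioo_subset_Icc_self)).comp hc hm
    have hB' := (hB.mono (Ioo_subset_Icc_self)).comp hc hm
    have hW' := (hW.mono (Ioo_subset_Ioc_self)).comp hc hm
    have h1 := (continuousOn_const (c := (1 : ℝ))).sub hV' |>.sub
      ((continuousOn_const (c := ε)).mul hB')
    exact (h1.sub ((continuousOn_const (c := ε ^ 2)).mul hW')).sqrt.sub h1.sqrt
  · filter_upwards [hsmall] with ε hε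
    refine (ae_restrict_iff' measurableSet_Ioo).2 (Eventually.of_forall fun x hx => ?_)
    have hr := hmaps ε hε.1 hε.2.2 x hx
    have h1 := hC (ε * x) ⟨hr.1.le, hr.2.le⟩
    have h2 := hC' (ε * x) ⟨hr.1.le, hr.2.le⟩
    have h3 := hW0 (ε * x) ⟨hr.1, hr.2.le⟩
    rw [Real.norm_eq_abs] at h1 h2
    have h4 := abs_le.1 h1
    have h5 := abs_le.1 h2
    have h6 : -(ε * B (ε * x)) ≤ C := by nlinarith [hε.1, hε.2.1]
    have h7 : 0 ≤ ε ^ 2 * W (ε * x) := by positivity
    refine (norm_sub_le _ _).trans (add_le_add ?_ ?_)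
    · rw [Real.norm_of_nonneg (Real.sqrt_nonneg _)]
      exact Real.sqrt_le_sqrt (by linarith)
    · rw [Real.norm_of_nonneg (Real.sqrt_nonneg _)]
      exact Real.sqrt_le_sqrt (by linarith)
  · exact integrable_const _
  · refine (ae_restrict_iff' measurableSet_Ioo).2 (Eventually.of_forall fun x hx => ?_)
    have ht : Tendsto (fun ε : ℝ => ε * x) (𝓝[>] 0) (𝓝[>] 0) := by
      refine tendsto_nhdsWithin_iff.2 ⟨?_, ?_⟩
      · have : Tendsto (fun ε : ℝ => ε * x) (𝓝 0) (𝓝 (0 * x)) := by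
          exact tendsto_id.mul_const x
        rw [zero_mul] at this
        exact this.mono_left nhdsWithin_le_nhds
      · filter_upwards [self_mem_nhdsWithin] with ε hε
        exact mul_pos hε hx.1
    have ht' : Tendsto (fun ε : ℝ => ε * x) (𝓝[>] 0) (𝓝[Icc 0 q] 0) := by
      refine ht.mono_right ?_
      rw [← nhdsWithin_Ioo_eq_nhdsGT hq]
      exact nhdsWithin_mono _ Ioo_subset_Icc_self
    have hVt : Tendsto (fun ε : ℝ => V (ε * x)) (𝓝[>] 0) (𝓝 (V 0)) :=
      (hV 0 ⟨le_rfl, hq.le⟩).tendsto.comp ht'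
    have hBt : Tendsto (fun ε : ℝ => B (ε * x)) (𝓝[>] 0) (𝓝 (B 0)) :=
      (hB 0 ⟨le_rfl, hq.le⟩).tendsto.comp ht'
    have hεt : Tendsto (fun ε : ℝ => ε) (𝓝[>] 0) (𝓝 0) := nhdsWithin_le_nhds
    have hWt : Tendsto (fun ε : ℝ => ε ^ 2 * W (ε * x)) (𝓝[>] 0) (𝓝 (1 / x ^ 2)) := by
      have h1 : Tendsto (fun ε : ℝ => (ε * x) ^ 2 * W (ε * x)) (𝓝[>] 0) (𝓝 1) := hW1.comp ht
      refine (h1.div_const (x ^ 2)).congr' (Eventually.of_forall fun ε => ?_)
      have := hx.1.ne'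
      field_simp
    have h1 : Tendsto (fun ε : ℝ => 1 - V (ε * x) - ε * B (ε * x)) (𝓝[>] 0) (𝓝 (1 - V 0)) := by
      have := (tendsto_const_nhds (x := (1 : ℝ))).sub hVt |>.sub (hεt.mul hBt)
      simpa using this
    exact ((h1.sub hWt).sqrt).sub h1.sqrt

theorem int_W {a M : ℝ} (ha : 0 < a) (hM : 0 < M) :
    ∫ x in Ioo 0 M, (√(a - 1 / x ^ 2) - √a) ≤ - arctan (√(a * M ^ 2 - 1)) := by
  rw [← integral_Ioc_eq_integral_Ioo, ← intervalIntegral.integral_of_le hM.le]
  have hsa : 0 < √a := Real.sqrt_pos.2 ha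
  have hsq : √a ^ 2 = a := Real.sq_sqrt ha.le
  set F : ℝ → ℝ := fun x => √(a * x ^ 2 - 1) - arctan (√(a * x ^ 2 - 1)) - √a * x with hF
  have hFc : Continuous F := by
    have h1 : Continuous fun x : ℝ => √(a * x ^ 2 - 1) := by fun_prop
    exact (h1.sub (Real.continuous_arctan.comp h1)).sub (by fun_prop)
  have hd : ∀ x ∈ Ioo 0 M \ {1 / √a}, HasDerivAt F (√(a - 1 / x ^ 2) - √a) x := by
    intro x hx
    have hx0 : 0 < x := hx.1.1
    have hne : x ≠ 1 / √a := hx.2
    have hne' : a * x ^ 2 - 1 ≠ 0 := by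
      intro h
      apply hne
      rw [eq_div_iff hsa.ne']
      have : (x * √a) ^ 2 = 1 := by rw [mul_pow, hsq]; linarith
      have h2 : 0 < x * √a := by positivity
      nlinarith
    have h1 : HasDerivAt (fun x : ℝ => a * x ^ 2 - 1) (a * (2 * x)) x := by
      have := ((hasDerivAt_pow 2 x).const_mul a).sub_const 1
      simpa using this
    have h2 := h1.sqrt hne'
    have h3 := h2.sub (h2.arctan)
    have h4 := h3.sub ((hasDerivAt_id x).const_mul √a)
    refine HasDerivAt.congr_deriv (f := F) h4 ?_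
    rw [mul_one]
    congr 1
    rcases lt_or_gt_of_ne hne' with h | h
    · rw [Real.sqrt_eq_zero_of_nonpos h.le, Real.sqrt_eq_zero_of_nonpos]
      · simp
      · rw [sub_nonpos, le_div_iff₀ (by positivity)]; linarith
    · have hs : 0 < √(a * x ^ 2 - 1) := Real.sqrt_pos.2 h
      have hs2 : √(a * x ^ 2 - 1) ^ 2 = a * x ^ 2 - 1 := Real.sq_sqrt h.le
      have h5 : √(a - 1 / x ^ 2) = √(a * x ^ 2 - 1) / x := by
        rw [show a - 1 / x ^ 2 = (a * x ^ 2 - 1) / x ^ 2 by field_simp,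
          Real.sqrt_div h.le, Real.sqrt_sq hx0.le]
      rw [h5, hs2]
      have h6 : 1 + (a * x ^ 2 - 1) = a * x ^ 2 := by ring
      rw [h6]
      field_simp
      rw [hs2]
  have hi : IntervalIntegrable (fun x => √(a - 1 / x ^ 2) - √a) volume 0 M := by
    rw [intervalIntegrable_iff_integrableOn_Ioc_of_le hM.le]
    refine Integrable.mono' (integrable_const (√a + √a)) ?_ ?_
    · refine ContinuousOn.aestronglyMeasurable ?_ measurableSet_Ioc
      have : ContinuousOn (fun x : ℝ => 1 / x ^ 2) (Ioc 0 M) :=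
        continuousOn_const.div (by fun_prop) (fun x hx => pow_ne_zero 2 hx.1.ne')
      exact (continuousOn_const.sub this).sqrt.sub continuousOn_const
    · refine (ae_restrict_iff' measurableSet_Ioc).2 (Eventually.of_forall fun x hx => ?_)
      refine (norm_sub_le _ _).trans (add_le_add ?_ ?_)
      · rw [Real.norm_of_nonneg (Real.sqrt_nonneg _)]
        exact Real.sqrt_le_sqrt (by have : 0 ≤ 1 / x ^ 2 := by positivity
                                    linarith)
      · rw [Real.norm_of_nonneg (Real.sqrt_nonneg _)]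
  have := integral_eq_of_hasDerivAt_off_countable_of_le F _ hM.le (countable_singleton (1 / √a))
    hFc.continuousOn hd hi
  rw [this]
  have h0 : F 0 = 0 := by
    simp only [hF]
    rw [Real.sqrt_eq_zero_of_nonpos (by norm_num)]
    simp
  rw [h0, sub_zero]
  have h1 : √(a * M ^ 2 - 1) ≤ √a * M := by
    rw [← Real.sqrt_sq hM.le, ← Real.sqrt_mul ha.le, Real.sqrt_sq hM.le]
    exact Real.sqrt_le_sqrt (by linarith)
  simp only [hF]
  linarith

theorem s_SING : Pool.Agent.L7h84.TT.S_SING := by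
  intro q V B W hq hV hB hW hV1 hW0 hW1 hi η hη
  obtain ⟨C, hC⟩ := isCompact_Icc.exists_bound_of_continuousOn hB
  obtain ⟨C', hC'⟩ := isCompact_Icc.exists_bound_of_continuousOn hV
  have hC0 : 0 ≤ C := (norm_nonneg _).trans (hC 0 ⟨le_rfl, hq.le⟩)
  have hC0' : 0 ≤ C' := (norm_nonneg _).trans (hC' 0 ⟨le_rfl, hq.le⟩)
  have ha : 0 < 1 - V 0 := by linarith [hV1 0 ⟨le_rfl, hq⟩]
  -- choice of M
  obtain ⟨M, hM0, hM⟩ : ∃ M : ℝ, 0 < M ∧ π / 2 - η / 4 < arctan (√((1 - V 0) * M ^ 2 - 1)) := by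
    have h1 : Tendsto (fun M : ℝ => (1 - V 0) * M ^ 2 - 1) atTop atTop := by
      refine tendsto_atTop_add_const_right _ _ ?_
      exact (tendsto_pow_atTop (by norm_num)).const_mul_atTop ha
    have h2 : Tendsto (fun M : ℝ => arctan (√((1 - V 0) * M ^ 2 - 1))) atTop (𝓝 (π / 2)) :=
      (tendsto_nhds_of_tendsto_nhdsWithin Real.tendsto_arctan_atTop).comp
        (Real.tendsto_sqrt_atTop.comp h1)
    have h3 := (h2.eventually (lt_mem_nhds (show π / 2 - η / 4 < π / 2 by linarith))).and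
      (eventually_gt_atTop 0)
    obtain ⟨M, hM⟩ := h3.exists
    exact ⟨M, hM.2, hM.1⟩
  have hl1 := lim_B q V B hV hB hV1 hi
  have hl2 := lim_W q hq V B W hV hB hW hV1 hW0 hW1 M hM0
  have hsmall : ∀ᶠ ε in 𝓝[>] (0 : ℝ), 0 < ε ∧ ε < 1 ∧ ε * M < q := by
    have h1 : ∀ᶠ ε in 𝓝[>] (0 : ℝ), ε < min 1 (q / M) :=
      nhdsWithin_le_nhds (Iio_mem_nhds (lt_min one_pos (div_pos hq hM0)))
    filter_upwards [self_mem_nhdsWithin, h1] with ε h2 h3
    exact ⟨h2, h3.trans_le (min_le_left _ _), (lt_div_iff₀ hM0).1 (h3.trans_le (min_le_right _ _))⟩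
  have e1 := hl1.eventually (gt_mem_nhds (lt_add_of_pos_right _ (show 0 < η / 4 by linarith)))
  have e2 := hl2.eventually (gt_mem_nhds (lt_add_of_pos_right _ (show 0 < η / 4 by linarith)))
  filter_upwards [hsmall, e1, e2] with ε ⟨he0, he1, heM⟩ h1 h2
  have hVo := hV.mono (Ioo_subset_Icc_self)
  have hBo := hB.mono (Ioo_subset_Icc_self)
  have hWo := hW.mono (Ioo_subset_Ioc_self)
  -- integrability
  have bd : ∀ r ∈ Ioo 0 q, 1 - V r - ε * B r ≤ 1 + C' + C ∧ 0 ≤ ε ^ 2 * W r ∧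
      1 - V r ≤ 1 + C' + C := by
    intro r hr
    have h1 := hC r ⟨hr.1.le, hr.2.le⟩
    have h2 := hC' r ⟨hr.1.le, hr.2.le⟩
    have h3 := hW0 r ⟨hr.1, hr.2.le⟩
    rw [Real.norm_eq_abs] at h1 h2
    have h4 := abs_le.1 h1
    have h5 := abs_le.1 h2
    have h6 : -(ε * B r) ≤ C := by nlinarith
    exact ⟨by linarith, by positivity, by linarith⟩
  have iD : IntegrableOn (fun r => √(1 - V r - ε * B r)) (Ioo 0 q) := by
    refine Integrable.mono' (integrable_const (√(1 + C' + C))) ?_ ?_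
    · refine ContinuousOn.aestronglyMeasurable ?_ measurableSet_Ioo
      exact ((continuousOn_const.sub hVo).sub (continuousOn_const.mul hBo)).sqrt
    · refine (ae_restrict_iff' measurableSet_Ioo).2 (Eventually.of_forall fun r hr => ?_)
      rw [Real.norm_of_nonneg (Real.sqrt_nonneg _)]
      exact Real.sqrt_le_sqrt (bd r hr).1
  have iA : IntegrableOn (fun r => √(1 - V r - ε * B r - ε ^ 2 * W r)) (Ioo 0 q) := by
    refine Integrable.mono' (integrable_const (√(1 + C' + C))) ?_ ?_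
    · refine ContinuousOn.aestronglyMeasurable ?_ measurableSet_Ioo
      exact (((continuousOn_const.sub hVo).sub (continuousOn_const.mul hBo)).sub
        (continuousOn_const.mul hWo)).sqrt
    · refine (ae_restrict_iff' measurableSet_Ioo).2 (Eventually.of_forall fun r hr => ?_)
      rw [Real.norm_of_nonneg (Real.sqrt_nonneg _)]
      exact Real.sqrt_le_sqrt (by linarith [(bd r hr).1, (bd r hr).2.1])
  have iS : IntegrableOn (fun r => √(1 - V r)) (Ioo 0 q) := by
    refine Integrable.mono' (integrable_const (√(1 + C' + C))) ?_ ?_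
    · refine ContinuousOn.aestronglyMeasurable ?_ measurableSet_Ioo
      exact (continuousOn_const.sub hVo).sqrt
    · refine (ae_restrict_iff' measurableSet_Ioo).2 (Eventually.of_forall fun r hr => ?_)
      rw [Real.norm_of_nonneg (Real.sqrt_nonneg _)]
      exact Real.sqrt_le_sqrt (bd r hr).2.2
  have k0 : ∫ r in Ioo 0 q, √(1 - (V r + ε * B r + ε ^ 2 * W r)) =
      ∫ r in Ioo 0 q, √(1 - V r - ε * B r - ε ^ 2 * W r) := by
    refine integral_congr_ae (Eventually.of_forall fun r => ?_)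
    simp only
    congr 1; ring
  have k1 : ∫ r in Ioo 0 q, √(1 - V r - ε * B r - ε ^ 2 * W r) =
      (∫ r in Ioo 0 q, √(1 - V r - ε * B r)) +
        ∫ r in Ioo 0 q, (√(1 - V r - ε * B r - ε ^ 2 * W r) - √(1 - V r - ε * B r)) := by
    rw [integral_sub iA iD]; ring
  have k2 : ∫ r in Ioo 0 q, (√(1 - V r - ε * B r) - √(1 - V r)) / ε =
      ((∫ r in Ioo 0 q, √(1 - V r - ε * B r)) - ∫ r in Ioo 0 q, √(1 - V r)) / ε := by
    rw [integral_div, integral_sub iD iS]
  have k3 : ∫ r in Ioo 0 q, -(B r / √(1 - V r)) / 2 =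
      -(∫ r in Ioo 0 q, B r / √(1 - V r)) / 2 := by
    rw [integral_div, integral_neg]
  have k4 : ∫ r in Ioo 0 q, (√(1 - V r - ε * B r - ε ^ 2 * W r) - √(1 - V r - ε * B r)) ≤
      ∫ r in Ioo 0 (ε * M), (√(1 - V r - ε * B r - ε ^ 2 * W r) - √(1 - V r - ε * B r)) := by
    have h := setIntegral_mono_set (μ := volume) (s := Ioo 0 (ε * M)) (t := Ioo 0 q)
      (f := fun r => -(√(1 - V r - ε * B r - ε ^ 2 * W r) - √(1 - V r - ε * B r)))
      ((iA.sub iD).neg) ?_ ?_
    · rw [integral_neg, integral_neg] at h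
      linarith
    · refine (ae_restrict_iff' measurableSet_Ioo).2 (Eventually.of_forall fun r hr => ?_)
      simp only [Pi.zero_apply, neg_sub, sub_nonneg]
      exact Real.sqrt_le_sqrt (by linarith [(bd r hr).2.1])
    · exact (Ioo_subset_Ioo_right heM.le).eventuallyLE
  have k5 : ∫ r in Ioo 0 (ε * M), (√(1 - V r - ε * B r - ε ^ 2 * W r) - √(1 - V r - ε * B r)) =
      ε * ∫ x in Ioo 0 M, (√(1 - V (ε * x) - ε * B (ε * x) - ε ^ 2 * W (ε * x)) -
        √(1 - V (ε * x) - ε * B (ε * x))) := by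
    rw [← integral_Ioc_eq_integral_Ioo, ← integral_Ioc_eq_integral_Ioo,
      ← intervalIntegral.integral_of_le hM0.le, ← intervalIntegral.integral_of_le (by positivity)]
    have h := intervalIntegral.integral_comp_mul_left (a := 0) (b := M)
      (fun r => √(1 - V r - ε * B r - ε ^ 2 * W r) - √(1 - V r - ε * B r)) he0.ne'
    rw [h, mul_zero, smul_eq_mul, ← mul_assoc, mul_inv_cancel₀ he0.ne', one_mul]
  have k6 := int_W ha hM0
  rw [k0, k1]
  rw [k2, k3] at h1
  rw [div_lt_iff₀ he0] at h1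
  have k7 : ∫ r in Ioo 0 (ε * M), (√(1 - V r - ε * B r - ε ^ 2 * W r) - √(1 - V r - ε * B r)) ≤
      ε * (-(π / 2) + η / 4 + η / 4) := by
    rw [k5]
    exact mul_le_mul_of_nonneg_left (by linarith) he0.le
  nlinarith [k4, k7, h1, mul_pos he0 hη]

end Pool.Agent.L7h34.TT
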