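import Pool.Agent.L7h84.TT.Stm

/-! # Project TT, part VOL: the volume bound -/

open Real Set MeasureTheory Filter Topology
open scoped ContDiff

namespace Pool.Agent.L7h34.TT

open Pool.Agent.L7h84.TT

theorem sqrt_zero_out {y : ℝ} (hy : y ∉ Icc (-1 : ℝ) 1) : √(1 - y ^ 2) = 0 := by
  apply Real.sqrt_eq_zero_of_nonpos
  rw [mem_Icc, not_and_or, not_le, not_le] at hy
  rcases hy with h | h <;> nlinarith

theorem int_circle : Integrable (fun y : ℝ => √(1 - y ^ 2)) := by
  refine Continuous.integrable_of_hasCompactSupport (by fun_prop) ?_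
  exact HasCompactSupport.intro (isCompact_Icc (a := (-1 : ℝ)) (b := 1)) fun x hx => sqrt_zero_out hx

theorem val_circle : ∫ y : ℝ, √(1 - y ^ 2) = π / 2 := by
  rw [← setIntegral_eq_integral_of_forall_compl_eq_zero (s := Icc (-1 : ℝ) 1)
    (fun x hx => sqrt_zero_out hx), integral_Icc_eq_integral_Ioc,
    ← intervalIntegral.integral_of_le (by norm_num), integral_sqrt_one_sub_sq]

theorem lint_circle (K k : ℝ) (hk : 0 < k) :
    ∫⁻ y : ℝ, ENNReal.ofReal (√(K - k * y ^ 2)) = ENNReal.ofReal (π / 2 * max K 0 / √k) := by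
  rcases le_or_gt K 0 with hK | hK
  · have h1 : ∀ y : ℝ, √(K - k * y ^ 2) = 0 := by
      intro y
      apply Real.sqrt_eq_zero_of_nonpos
      have : 0 ≤ k * y ^ 2 := by positivity
      linarith
    simp [h1, max_eq_right hK]
  · have h1 : ∀ y : ℝ, √(K - k * y ^ 2) = √K * √(1 - (√(k / K) * y) ^ 2) := by
      intro y
      rw [← Real.sqrt_mul hK.le, mul_pow, Real.sq_sqrt (by positivity)]
      congr 1
      field_simp
    have hsk : 0 < √k := Real.sqrt_pos.2 hk
    have hsK : 0 < √K := Real.sqrt_pos.2 hK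
    have h2 : Integrable (fun y : ℝ => √K * √(1 - (√(k / K) * y) ^ 2)) := by
      refine Integrable.const_mul ?_ _
      exact int_circle.comp_mul_left' (by positivity)
    simp_rw [h1]
    rw [← ofReal_integral_eq_lintegral_ofReal h2 (Eventually.of_forall fun y => by positivity)]
    congr 1
    rw [integral_const_mul, Measure.integral_comp_mul_left (fun y : ℝ => √(1 - y ^ 2)), val_circle,
      max_eq_left hK.le, abs_of_pos (by positivity), Real.sqrt_div hk.le, smul_eq_mul]
    have := Real.mul_self_sqrt hK.le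
    field_simp
    linarith

theorem para_zero_out {y : ℝ} (hy : y ∉ Icc (-1 : ℝ) 1) : max (1 - y ^ 2) 0 = 0 := by
  apply max_eq_right
  rw [mem_Icc, not_and_or, not_le, not_le] at hy
  rcases hy with h | h <;> nlinarith

theorem int_para : Integrable (fun y : ℝ => max (1 - y ^ 2) 0) := by
  refine Continuous.integrable_of_hasCompactSupport (by fun_prop) ?_
  exact HasCompactSupport.intro (isCompact_Icc (a := (-1 : ℝ)) (b := 1)) fun x hx => para_zero_out hx

theorem val_para : ∫ y : ℝ, max (1 - y ^ 2) 0 = 4 / 3 := by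
  rw [← setIntegral_eq_integral_of_forall_compl_eq_zero (s := Icc (-1 : ℝ) 1)
    (fun x hx => para_zero_out hx)]
  rw [setIntegral_congr_fun (g := fun y : ℝ => 1 - y ^ 2) measurableSet_Icc (fun y hy => by
    simp only
    apply max_eq_left
    obtain ⟨h1, h2⟩ := hy
    nlinarith)]
  rw [integral_Icc_eq_integral_Ioc, ← intervalIntegral.integral_of_le (by norm_num)]
  rw [intervalIntegral.integral_sub (by simp) (Continuous.intervalIntegrable (by fun_prop) _ _)]
  simp
  norm_num

theorem lint_para (A w : ℝ) (hA : 0 < A) (hw : 0 ≤ w) :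
    ∫⁻ x : ℝ, ENNReal.ofReal (w * max (1 - x ^ 2 / A) 0) = ENNReal.ofReal (w * √A * (4 / 3)) := by
  have hsA : 0 < √A := Real.sqrt_pos.2 hA
  have h1 : ∀ x : ℝ, w * max (1 - x ^ 2 / A) 0 = w * max (1 - ((√A)⁻¹ * x) ^ 2) 0 := by
    intro x
    rw [mul_pow, inv_pow, Real.sq_sqrt hA.le, inv_mul_eq_div]
  have h2 : Integrable (fun x : ℝ => w * max (1 - ((√A)⁻¹ * x) ^ 2) 0) := by
    refine Integrable.const_mul ?_ _
    exact int_para.comp_mul_left' (by positivity)
  simp_rw [h1]
  rw [← ofReal_integral_eq_lintegral_ofReal h2 (Eventually.of_forall fun y => by positivity)]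
  congr 1
  rw [integral_const_mul, Measure.integral_comp_mul_left (fun y : ℝ => max (1 - y ^ 2) 0), val_para,
    inv_inv, abs_of_pos hsA, smul_eq_mul]
  ring

theorem lint_tent (p : ℕ) (K : ℝ) (hK : 0 ≤ K) (hp : p ≠ 0) :
    ∫⁻ x : ℝ, ENNReal.ofReal ((max (K - |x|) 0) ^ p) =
      ENNReal.ofReal (2 * K ^ (p + 1) / (p + 1)) := by
  have h0 : Integrable (fun x : ℝ => (max (K - |x|) 0) ^ p) := by
    refine Continuous.integrable_of_hasCompactSupport (by fun_prop) ?_
    refine HasCompactSupport.intro (isCompact_Icc (a := -K) (b := K)) fun x hx => ?_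
    rw [max_eq_right, zero_pow hp]
    by_contra h
    push Not at h
    have h1 : |x| ≤ K := by linarith
    exact hx (abs_le.1 h1)
  rw [← ofReal_integral_eq_lintegral_ofReal h0 (Eventually.of_forall fun y => by positivity)]
  congr 1
  rw [integral_comp_abs (f := fun x : ℝ => (max (K - x) 0) ^ p)]
  have h1 : ∫ x in Ioi (0 : ℝ), (max (K - x) 0) ^ p = ∫ x in Ioc (0 : ℝ) K, (max (K - x) 0) ^ p := by
    refine setIntegral_eq_of_subset_of_forall_sdiff_eq_zero measurableSet_Ioi Ioc_subset_Ioi_self ?_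
    rintro x ⟨h2, h3⟩
    rw [max_eq_right, zero_pow hp]
    by_contra h
    push Not at h
    exact h3 ⟨h2, by linarith⟩
  rw [h1, setIntegral_congr_fun (g := fun x : ℝ => (K - x) ^ p) measurableSet_Ioc (fun x hx => by
    simp only
    rw [max_eq_left (by linarith [hx.2])])]
  rw [← intervalIntegral.integral_of_le hK,
    intervalIntegral.integral_comp_sub_left (fun x : ℝ => x ^ p), integral_pow]
  simp
  ring

theorem lint_pyr (R : ℝ) (hR : 0 < R) :
    ∫⁻ c : ℝ × ℝ, ENNReal.ofReal (π * (R - |c.1| - |c.2|)) = ENNReal.ofReal (2 * π / 3 * R ^ 3) := by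
  rw [Measure.volume_eq_prod, lintegral_prod _ (by fun_prop)]
  have h1 : ∀ x : ℝ, ∫⁻ y : ℝ, ENNReal.ofReal (π * (R - |x| - |y|)) =
      ENNReal.ofReal π * ENNReal.ofReal ((max (R - |x|) 0) ^ 2) := by
    intro x
    simp_rw [ENNReal.ofReal_mul Real.pi_pos.le]
    rw [lintegral_const_mul _ (by fun_prop)]
    congr 1
    rcases le_or_gt (R - |x|) 0 with h | h
    · rw [max_eq_right h]
      have : ∀ y : ℝ, ENNReal.ofReal (R - |x| - |y|) = 0 := by
        intro y
        apply ENNReal.ofReal_of_nonpos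
        linarith [abs_nonneg y]
      simp [this]
    · rw [max_eq_left h.le]
      have h2 := lint_tent 1 (R - |x|) h.le one_ne_zero
      have h3 : ∀ y : ℝ, ENNReal.ofReal (R - |x| - |y|) =
          ENNReal.ofReal ((max (R - |x| - |y|) 0) ^ 1) := by
        intro y
        rw [pow_one]
        rcases le_total (R - |x| - |y|) 0 with h' | h'
        · rw [max_eq_right h', ENNReal.ofReal_of_nonpos h', ENNReal.ofReal_zero]
        · rw [max_eq_left h']
      simp_rw [h3, h2]
      congr 1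
      push_cast
      ring
  simp_rw [h1]
  rw [lintegral_const_mul _ (by fun_prop), lint_tent 2 R hR.le two_ne_zero,
    ← ENNReal.ofReal_mul Real.pi_pos.le]
  congr 1
  push_cast
  ring

theorem gD_pos {L : ℝ} {f h σ : ℝ → ℝ} (H : IsTorusMetric L f h σ) {r : ℝ} (hr : r ∈ Ioo 0 L) :
    0 < gD f h σ r := by
  have h1 := H.prof.f_pos r hr.1 hr.2.le
  have h2 := H.prof.h_pos r hr.1.le hr.2
  have h3 := H.lt_one r
  have : gD f h σ r = f r ^ 2 * h r ^ 2 * (1 - (σ r * f r * h r) ^ 2) := by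
    unfold gD gA gB gC; ring
  rw [this]
  have : 0 < 1 - (σ r * f r * h r) ^ 2 := by linarith
  positivity

theorem lint_VV {L : ℝ} {f h σ : ℝ → ℝ} (H : IsTorusMetric L f h σ) {r : ℝ} (hr : r ∈ Ioo 0 L) :
    ∫⁻ c : ℝ × ℝ, ENNReal.ofReal (√(1 - VV f h σ c r)) =
      ENNReal.ofReal (2 * π / 3 * √(gD f h σ r)) := by
  have hD := gD_pos H hr
  have hA : 0 < gA f r := by
    have := H.prof.f_pos r hr.1 hr.2.le
    unfold gA; positivity
  have hmeas : Measurable (fun c : ℝ × ℝ => ENNReal.ofReal (√(1 - VV f h σ c r))) := by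
    unfold VV
    fun_prop
  rw [Measure.volume_eq_prod, lintegral_prod _ hmeas.aemeasurable]
  set A := gA f r with hAd
  set B := gB f h σ r with hBd
  set C := gC h r with hCd
  set D := gD f h σ r with hDd
  have hDe : D = A * C - B ^ 2 := rfl
  have hsD : 0 < √D := Real.sqrt_pos.2 hD
  have hsA : 0 < √A := Real.sqrt_pos.2 hA
  have h1 : ∀ x : ℝ, ∫⁻ y : ℝ, ENNReal.ofReal (√(1 - VV f h σ (x, y) r)) =
      ENNReal.ofReal (π / 2 * √D / √A * max (1 - x ^ 2 / A) 0) := by
    intro x
    have e1 : ∀ y : ℝ, 1 - VV f h σ (x, y) r =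
        (1 - x ^ 2 / A) - A / D * (y - B / A * x) ^ 2 := by
      intro y
      unfold VV
      simp only
      rw [← hAd, ← hBd, ← hCd, ← hDd]
      have : C = (D + B ^ 2) / A := by
        rw [hDe]; field_simp; ring
      rw [this]
      field_simp
      ring
    simp_rw [e1]
    rw [lintegral_sub_right_eq_self
      (fun y : ℝ => ENNReal.ofReal (√((1 - x ^ 2 / A) - A / D * y ^ 2))) (B / A * x)]
    rw [lint_circle _ _ (by positivity), Real.sqrt_div hA.le]
    congr 1
    field_simp
  simp_rw [h1]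
  rw [lint_para A _ hA (by positivity)]
  congr 1
  field_simp
  ring

theorem ofReal_integral_le {α : Type*} [MeasurableSpace α] (μ : Measure α) (g : α → ℝ)
    (hg : ∀ x, 0 ≤ g x) : ENNReal.ofReal (∫ x, g x ∂μ) ≤ ∫⁻ x, ENNReal.ofReal (g x) ∂μ := by
  by_cases hi : Integrable g μ
  · rw [ofReal_integral_eq_lintegral_ofReal hi (Eventually.of_forall hg)]
  · rw [integral_undef hi]; simp

theorem s_VOL : S_VOL := by
  intro L f h σ H R hR hc
  have hfc : Continuous f := H.prof.smooth_f.continuous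
  have hhc : Continuous h := H.prof.smooth_h.continuous
  have hσc : Continuous σ := H.smooth.continuous
  have hfm : Measurable f := hfc.measurable
  have hhm : Measurable h := hhc.measurable
  have hσm : Measurable σ := hσc.measurable
  have hDc : Continuous (gD f h σ) := by unfold gD gA gB gC; fun_prop
  have k1 : ∫⁻ c : ℝ × ℝ, ENNReal.ofReal (π * (R - |c.1| - |c.2|)) ≤
      ∫⁻ c : ℝ × ℝ, 2 * ∫⁻ r in Ioo 0 L, ENNReal.ofReal (√(1 - VV f h σ c r)) := by
    refine lintegral_mono_ae ?_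
    have n1 : ∀ᵐ c : ℝ × ℝ, c.1 ≠ 0 := by
      have : (volume : Measure (ℝ × ℝ)) {c | c.1 = 0} = 0 := by
        have e : {c : ℝ × ℝ | c.1 = 0} = {0} ×ˢ univ := by ext c; simp
        rw [e, Measure.volume_eq_prod, Measure.prod_prod]
        simp
      simpa [ae_iff] using this
    have n2 : ∀ᵐ c : ℝ × ℝ, c.2 ≠ 0 := by
      have : (volume : Measure (ℝ × ℝ)) {c | c.2 = 0} = 0 := by
        have e : {c : ℝ × ℝ | c.2 = 0} = univ ×ˢ {0} := by ext c; simp
        rw [e, Measure.volume_eq_prod, Measure.prod_prod]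
        simp
      simpa [ae_iff] using this
    filter_upwards [n1, n2] with c h1 h2
    rcases lt_or_ge (|c.1| + |c.2|) R with h3 | h3
    · refine (ENNReal.ofReal_le_ofReal (hc c h1 h2 h3)).trans ?_
      rw [ENNReal.ofReal_mul two_pos.le]
      simp only [ENNReal.ofReal_ofNat]
      gcongr
      exact ofReal_integral_le _ _ fun r => Real.sqrt_nonneg _
    · rw [ENNReal.ofReal_of_nonpos]
      · exact bot_le
      · have := Real.pi_pos
        have : R - |c.1| - |c.2| ≤ 0 := by linarith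
        nlinarith
  have k2 : ∫⁻ c : ℝ × ℝ, 2 * ∫⁻ r in Ioo 0 L, ENNReal.ofReal (√(1 - VV f h σ c r)) =
      2 * ∫⁻ r in Ioo 0 L, ∫⁻ c : ℝ × ℝ, ENNReal.ofReal (√(1 - VV f h σ c r)) := by
    have hm : Measurable (fun p : (ℝ × ℝ) × ℝ => ENNReal.ofReal (√(1 - VV f h σ p.1 p.2))) := by
      unfold VV gD gA gB gC
      fun_prop
    rw [lintegral_const_mul' _ _ (by simp)]
    congr 1
    exact lintegral_lintegral_swap hm.aemeasurable
  have k3 : ∫⁻ r in Ioo 0 L, ∫⁻ c : ℝ × ℝ, ENNReal.ofReal (√(1 - VV f h σ c r)) =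
      ∫⁻ r in Ioo 0 L, ENNReal.ofReal (2 * π / 3 * √(gD f h σ r)) := by
    refine setLIntegral_congr_fun measurableSet_Ioo fun r hr => ?_
    exact lint_VV H hr
  have k4 : ∫⁻ r in Ioo 0 L, ENNReal.ofReal (2 * π / 3 * √(gD f h σ r)) =
      ENNReal.ofReal (2 * π / 3 * ∫ r in (0 : ℝ)..L, √(gD f h σ r)) := by
    rw [← ofReal_integral_eq_lintegral_ofReal]
    · rw [integral_const_mul, intervalIntegral.integral_of_le H.prof.pos.le,
        integral_Ioc_eq_integral_Ioo]
    · have h3 : IntegrableOn (fun r => 2 * π / 3 * √(gD f h σ r)) (Icc 0 L) :=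
        (Continuous.continuousOn (by fun_prop)).integrableOn_Icc
      exact h3.mono_set Ioo_subset_Icc_self
    · exact Eventually.of_forall fun r => by positivity
  rw [lint_pyr R hR, k2, k3, k4] at k1
  have hI : 0 ≤ ∫ r in (0 : ℝ)..L, √(gD f h σ r) :=
    intervalIntegral.integral_nonneg H.prof.pos.le fun r _ => Real.sqrt_nonneg _
  rw [show (2 : ENNReal) = ENNReal.ofReal 2 by simp, ← ENNReal.ofReal_mul two_pos.le,
    ENNReal.ofReal_le_ofReal_iff (by positivity)] at k1
  have : 0 < 2 * π / 3 := by positivity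
  nlinarith

end Pool.Agent.L7h34.TT
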